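import Pool.Agent.Run7.h197.U.Henon

/-!
# Hénon maps of large degree: periodic points of bounded degree, uniformly in the field, the degree
# and the map

For all `D`, `B` there is a constant `C` such that for all `M ≥ 1`, `k` there is `κ` with the following
property. Let `K` be ANY number field of degree at most `D`, let `T ≥ 1` and `d ≥ (T + 1) ^ κ` be ANY
natural numbers, and let `f(x, y) = (y, a y ^ d + g(y) - δ x)` be ANY generalized Hénon map of degree
`d` over `K` with `deg g ≤ k` such that

* `δ` and the coefficients `g_j` of `g` are integral outside of the primes dividing `T` (`a` is arbitrary),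
* `H(a) H(δ) H(g_0) ⋯ H(g_k) ≤ H(g_0) ^ M` and `(H(δ) H(g_1) ⋯ H(g_k)) ^ M ≤ H(g_0) ^ (M - 1)`.

Then `f` has at most `C` periodic points `P` over the algebraic closure of `K` with `[K(P) : K] ≤ B`.
The bound `C = C(D, B)` does not depend on the degree `d`. Moreover all the coordinates of all these points
have the same `d`-th power, or all of them are `0` or roots of unity.

For instance `f(x, y) = (y, y ^ d + c - δ x)` with algebraic integers `c`, `δ` in `K` and
`H(δ) ≤ H(c) ^ (1 - 1 / M)` for a fixed `M ≥ 2` (such as `δ = ± 1`), for all `d ≥ d₀(D, B, M)`.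

(For arbitrary `g` of degree at most `k` a bound has to grow with `k`, since by interpolation there are
maps with orbits of any given length at most `k + 1`.)

Proof. Let `L` be the field generated by two such points. The elements `x_n` of their periodic
orbits satisfy `a x_n ^ d + g_0 = x_{n+1} + δ x_{n-1} - …`, where the right hand side is small compared with
`g_0` at the archimedean places and the places above `T` in total, since the heights of the `x_n`
are at most `H(g_0) ^ (C / d)`. So for elements `y`, `z` of the orbits `(z / y) ^ d - 1` is small at these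
places. On the other hand, it is at least `exp (- ε d (1 + log H(z / y)))` unless `z ^ d = y ^ d`: at
archimedean places by a lower bound for linear forms in logarithms which depends only on the degree of
the field, at the others by an elementary estimate. It follows that `H(y)`, `H(z)` are so close to `1`
that `y`, `z` are roots of unity, by Northcott's theorem for points of bounded degree.
-/

set_option autoImplicit false

namespace Pool.Agent.Results.MP_0e6b5f_nt.LargeDegreeUniform

open NumberField Height Polynomial

/-- the generalized Hénon map `(x, y) ↦ (y, F(y) - δ x)` over `K`, on the points over the algebraic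
closure -/
noncomputable def henon {K : Type} [Field K] (F : K[X]) (δ : K)
    (P : AlgebraicClosure K × AlgebraicClosure K) : AlgebraicClosure K × AlgebraicClosure K :=
  (P.2, aeval P.2 F - algebraMap K (AlgebraicClosure K) δ * P.1)

/-- the periodic points `P` with `[K(P) : K] ≤ B` -/
def periodicOfDegree {K : Type} [Field K] (F : K[X]) (δ : K) (B : ℕ) :
    Set (AlgebraicClosure K × AlgebraicClosure K) :=
  {P | (∃ n : ℕ, 1 ≤ n ∧ (henon F δ)^[n] P = P) ∧
    Module.finrank K (IntermediateField.adjoin K ({P.1, P.2} : Set (AlgebraicClosure K))) ≤ B}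

/-- integral outside of the primes dividing `T` -/
def TIntegral {K : Type} [Field K] (T : ℕ) (x : K) : Prop := ∃ n : ℕ, IsIntegral ℤ ((T : K) ^ n * x)

/-- the conditions for the coefficients of `F = a y ^ d + g` and for `δ`; `Height.mulHeight₁` is Mathlib's
height relative to `K` -/
def Dominant {K : Type} [Field K] [NumberField K] (M k T : ℕ) (a δ : K) (g : K[X]) : Prop :=
  TIntegral T δ ∧ (∀ j, TIntegral T (g.coeff j)) ∧
    mulHeight₁ a * (mulHeight₁ δ * ∏ j ∈ Finset.range (k + 1), mulHeight₁ (g.coeff j)) ≤
      mulHeight₁ (g.coeff 0) ^ M ∧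
    (mulHeight₁ δ * ∏ j ∈ Finset.range k, mulHeight₁ (g.coeff (j + 1))) ^ M ≤
      mulHeight₁ (g.coeff 0) ^ (M - 1)

/-- the coordinates of the points of a set -/
def coordinates {Ω : Type} (V : Set (Ω × Ω)) : Set Ω := {y | ∃ P ∈ V, y = P.1 ∨ y = P.2}

/-- all members have the same `d`-th power, or all are zero or roots of unity -/
def Rigid {Ω : Type} [Field Ω] (d : ℕ) (V : Set Ω) : Prop :=
  (∀ y ∈ V, ∀ z ∈ V, y ^ d = z ^ d) ∨ (∀ y ∈ V, y = 0 ∨ ∃ n : ℕ, 1 ≤ n ∧ y ^ n = 1)

theorem henon_eq {K : Type} [Field K] (a δ : K) (g : K[X]) (d : ℕ) :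
    henon (C a * X ^ d + g) δ = Run7.h197.U.hen (AlgebraicClosure K) a δ g d := by
  funext P
  unfold henon Run7.h197.U.hen
  rw [map_add, map_mul, map_pow, aeval_C, aeval_X]

/-- **periodic points of bounded degree of Hénon maps of large degree** -/
theorem result (D B : ℕ) : ∃ C₀ : ℕ, ∀ M k : ℕ, 1 ≤ M → ∃ κ : ℕ, ∀ (K : Type) [Field K]
    [NumberField K], Module.finrank ℚ K ≤ D → ∀ T d : ℕ, 1 ≤ T → (T + 1) ^ κ ≤ d →
    ∀ (a δ : K) (g : K[X]), a ≠ 0 → g.natDegree ≤ k → Dominant M k T a δ g →
    (periodicOfDegree (C a * X ^ d + g) δ B).encard ≤ C₀ ∧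
      Rigid d (coordinates (periodicOfDegree (C a * X ^ d + g) δ B)) := by
  refine ⟨Run7.h197.U.Cc (D * (B * B)), ?_⟩
  intro M k hM
  obtain ⟨κ, h⟩ := Run7.h197.U.henon_main D B M k hM
  refine ⟨κ, ?_⟩
  intro K _ _ hK T d hT hd a δ g ha hg hdom
  have h1 := h K hK T d hT hd a δ g ha hg hdom
  have e1 : periodicOfDegree (C a * X ^ d + g) δ B =
      Run7.h197.U.PerB (AlgebraicClosure K) a δ g d B := by
    unfold periodicOfDegree Run7.h197.U.PerB
    rw [henon_eq]
  rw [e1]
  exact h1

end Pool.Agent.Results.MP_0e6b5f_nt.LargeDegreeUniform
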