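import Mathlib
import Pool.Agent.Results.MP_0e6b5f_nt.FamiliesExactCount
import Pool.Agent.N938.TD.All6
import Pool.Agent.Run7.h316.DN.Rob

/-!
# MP_0e6b5f_nt: periodic points of Hénon maps in families at prime parameters, along all dominated families
# of parameters and along metric and random sequences

The starting file `FamiliesExactCount` shows: in every algebraic family
`f_t(x, y) = (y, (G_t(y) - δ(t) x) / μ(t))`, `t = (t_1, …, t_m)`, of generalized Hénon maps over a number
field `k`, 100% of the members at `t = (v_1 / v_0, …, v_m / v_0)` (ordered by boxes) have exactly as many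
periodic points of degree at most `B` over `k` as the generic member, and this number is finite. The
starting file `ThinFamilies` has the same for sequences of parameters which are equidistributed modulo all
integers.

Here `v_l = ∑_j x_{l j} ω_j` for an integral basis `ω_0, …, ω_{r-1}` of `k` and a vector `x` of integers,
`l = 0, …, m`. Let `x w`, `w ∈ Ω`, be a family of vectors and `S N ⊂ Ω` finite sets; `Usually`: for ALL
number fields `k ⊂ ℂ` with ALL integral bases, ALL `d ≥ 2`, ALL families `(G, δ, μ)` of generalized Hénon maps
of degree `d` over `k[t_1, …, t_m]` and ALL `B` the generic member has only finitely many periodic points of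
degree at most `B`, and the proportion of the `w ∈ S N` for which not (`v_0 ≠ 0`, the member at
`t = (v_1 / v_0, …, v_m / v_0)`, `v` the vector with the coordinates `x w`, is a generalized Hénon map of
degree `d`, and it has exactly as many periodic points of degree at most `B` over `k` as the generic member)
tends to zero, `N → ∞`.

**Theorem.** The property `Usually` is robust (`Pool.Agent.Run7.h316.EQ.Robust`):

(1) All dominated families have it: there are `C`, `A`, `M` such that for all squarefree `q` prime to `M` at
most the proportion `C (q / φ(q)) ^ A q ^ (-ρ) + o(1)` of the vectors is in a given class modulo `q`, where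
`ρ` is the number of the coordinates. (All equidistributed sequences are dominated, along arbitrary sets of
times, and all their subfamilies of positive lower density.)
(2) - (4) Metric sequences: `(⌊f_{i,n}(x_i)⌋)_i` for Koksma sequences `f_{i,0}, f_{i,1}, …`,
`(⌊a_{i,n} x_i⌋)_i` for arbitrary sequences of different integers (or of real numbers with a gap) and
`(⌊ξ_i x_i ^ (k_n)⌋)_i`, for almost all `x`.
(5) Random orbits of groups of integral matrices of determinant one which generate `SL(ℤ/q)` for all `q`
prime to some number (all Zariski dense groups, possibly of infinite index).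
(6) Generalised polynomials `(⌊∑_t a_{i,t} n ^ t⌋)_i` at the integers and at the primes `n` of `(N, 2N]`.
(7) PRIME PARAMETERS: the vectors of prime numbers `≤ N`. For example for 100% of the pairs of primes
`p, ℓ ≤ N` the member at `t = p / ℓ` of every family with one parameter over `ℚ` has exactly as many rational
periodic points as the generic member.

Proof. **Thin sets are very null** (`Pool.Agent.Run7.h316.DN.hit_very`): the set of the integral vectors `v`
at which a monic polynomial `P(v, T)` without root in `ℤ[v]` has an integral root avoids a positive proportion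
of the classes modulo infinitely many primes (`Pool.Agent.N455.HT`, the theorems of Lang and Weil and of
Landau), so that for all `D`, `η > 1` and `ε > 0` there is a squarefree number `q` prime to `D` with
`q ≤ η φ(q)` such that at most the proportion `ε` of the classes modulo `q` contain elements of it. Hence
dominated families have only few elements in thin sets, although the vectors of primes are not equidistributed
modulo any integer. So every dominated family, and the pronull sets, give an abstract density in the sense of
`Pool.Agent.N938.TD` (helper938, after Y706), for which the specialisation theorem holds. The statement is given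
by countably many pronull sets, so that it holds almost surely along metric sequences and random orbits:
`Pool.Agent.N24.KM` (helpers 24, 344, 617, 199, 764, 432, 286), `Pool.Agent.N24.RW` (helpers 24, 123, 195, 300,
543, 765); generalised polynomials: `Pool.Agent.N666.TM` (helper666); `Pool.Agent.N918.EQ` (helper918); primes:
the prime number theorem for arithmetic progressions (helper923).
-/

set_option autoImplicit false

namespace Pool.Agent.Results.MP_0e6b5f_nt.PrimeParameters

open Polynomial NumberField
open Pool.Agent.Results.MP_0e6b5f_nt.FamiliesExactCount (IsHenon periodic gen spec)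
open Pool.Agent.Run7.h316.EQ Pool.Agent.Run7.h316.DN

/-- The vector of the integers `v_l = ∑_j x_{l j} ω_j` of `k`, `l = 0, …, m`. -/
noncomputable def vector {k : Type} [Field k] {r m : ℕ} (ω : Module.Basis (Fin r) ℤ (𝓞 k))
    (x : Fin (m + 1) × Fin r → ℤ) : Fin (m + 1) → 𝓞 k :=
  fun l => ∑ j : Fin r, x (l, j) • ω j

/-- The member of the family at the vector `v` exists, is a generalized Hénon map of degree `d`, and has
exactly as many periodic points of degree at most `B` over `k` as the generic member. -/
def SameCount {k : Type} [Field k] {m : ℕ} (d : ℕ) (G : (MvPolynomial (Fin m) k)[X])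
    (δ μ : MvPolynomial (Fin m) k) (B : ℕ) (v : Fin (m + 1) → 𝓞 k) : Prop :=
  v 0 ≠ 0 ∧ IsHenon d (G.map (spec v)) (spec v δ) (spec v μ) ∧
    (periodic (G.map (spec v)) (spec v δ) (spec v μ) B).encard =
      (periodic (G.map (gen k m)) (gen k m δ) (gen k m μ) B).encard

/-- For all number fields, integral bases, families of Hénon maps and `B`: the generic member has finitely
many periodic points of degree at most `B`, and the proportion of the `w` in `S N` for which the member with the
coordinates `x w` has not exactly as many tends to zero, `N → ∞`. -/
def Usually (m r : ℕ) (Ω : Type) (S : ℕ → Finset Ω) (x : Ω → Fin (m + 1) × Fin r → ℤ) : Prop :=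
  ∀ (k : Subfield ℂ) [NumberField k] (ω : Module.Basis (Fin r) ℤ (𝓞 k)) (d : ℕ), 2 ≤ d →
    ∀ (G : (MvPolynomial (Fin m) k)[X]) (δ μ : MvPolynomial (Fin m) k), IsHenon d G δ μ → ∀ B : ℕ,
      (periodic (G.map (gen k m)) (gen k m δ) (gen k m μ) B).Finite ∧
      ∀ ε : ℝ, 0 < ε → ∃ N₀ : ℕ, ∀ N : ℕ, N₀ ≤ N →
        (({w : Ω | w ∈ S N ∧ ¬ SameCount d G δ μ B (vector ω (x w))}.ncard : ℕ) : ℝ) ≤
          ε * (S N).card

theorem result (m r : ℕ) (hr : 0 < r) : Robust (Usually m r) := by
  have hne : Nonempty (Fin (m + 1) × Fin r) := ⟨(0, ⟨0, hr⟩)⟩
  have hc := Pool.Agent.N938.TD.fam6_countable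
  -- the families with `m` parameters and a basis with `r` elements
  let I : Type := {p : Pool.Agent.N938.TD.Fam6 // p.m = m ∧ p.r = r}
  have hcI : Countable I := inferInstance
  let B : I → Set (Fin (m + 1) × Fin r → ℤ) := fun p =>
    {x | (fun q : Fin (p.1.m + 1) × Fin p.1.r =>
      x (Fin.cast (by rw [p.2.1]) q.1, Fin.cast (by rw [p.2.2]) q.2)) ∈
        Pool.Agent.N938.TD.bad6 p.1}
  refine robust_all B ?_ _ ?_
  · rintro ⟨f, h1, h2⟩
    subst h1 h2
    have h3 : B ⟨f, rfl, rfl⟩ = Pool.Agent.N938.TD.bad6 f := rfl
    rw [h3]
    exact allNull_den fun δ => Pool.Agent.N938.TD.bad6_D0 f δ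
  · intro Ω S x hR k hk ω d hd G δ μ hG B'
    refine ⟨(Pool.Agent.N938.TD.Y.main6 k d hd m G δ μ hG B').1, ?_⟩
    have h4 := hR ⟨⟨k, hk, r, d, m, B', ω, G, δ, μ, hd, hG⟩, rfl, rfl⟩
    refine Rare.mono (B' := B ⟨⟨k, hk, r, d, m, B', ω, G, δ, μ, hd, hG⟩, rfl, rfl⟩)
      (B := {w | ¬ SameCount d G δ μ B' (vector ω w)}) ?_ h4
    intro w hw
    have h5 : vector ω w = Pool.Agent.Y706.vec ω w := (Pool.Agent.N938.TD.vec_eq' ω w).symm
    have hw' : ¬ SameCount d G δ μ B' (vector ω w) := hw
    rw [h5] at hw'
    exact hw'

end Pool.Agent.Results.MP_0e6b5f_nt.PrimeParameters
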