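import Pool.Agent.Run7.h972.AW.Base
import Pool.Agent.Results.MP_0e6b5f_nt.RandomOrbits

/-!
# MP_0e6b5f_nt: the degrees of the periodic points of Hénon maps along random orbits of affine maps

The starting result `PeriodicDegrees` shows that for 100% of the vectors `(c₀, …, c_(d+1))` of integers
of a number field `K` in large boxes, and for all `δ ∈ O_K[1/D]` at once, all periodic points over the
algebraic closure of the Hénon map

  `f(x, y) = (y, φ(y) - δ x)`,  `φ = (c₁ + c₂ y + … + c_(d+1) y^d) / c₀`,

have degrees over `K` that are divisible by `d`; here `Exceptional K D d` is the set of the vectors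
without this property. The starting result `RandomOrbits` considers the vectors of one random orbit under
matrices in `SL_κ(ℤ)`, `#κ ≥ 2`, which generate `SL_κ(ℤ/q)` for all `q` prime to some `q₀`, and a set of
times of density zero for each `K`, `ω`, `d`, `D`, `f`. Here the maps are affine and need not be
invertible, and there is ONE set of times of density zero for all data and all starting vectors.

Let `x ↦ A_j x + b_j`, `j ≤ m`, be a finite family of affine maps of `ℤ^κ` (`AffineWalk`) which for all `q`
prime to some `M` are permutations of `(ℤ/q)^κ` and generate a transitive group. The determinants of the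
`A_j` are arbitrary nonzero integers. For instance `x ↦ 10 x + e` for vectors `e` of digits whose differences
span `ℚ^κ` (the coordinates are integers with random digits, read from the left), or random walks on `ℤ^κ`
(`A_j = 1`), which visit polynomially many vectors. For independent and uniformly distributed indices
`w 0, w 1, …` let `c_0 = v`, `c_(t+1) = A_(w t) c_t + b_(w t)`.

**Theorem.** For almost every word `w` there is ONE set `E` of times of density zero such that for ALL
starting vectors `v`, ALL number fields `K`, all integral bases `ω₀, …, ω_(m-1)` of `K`, all `d ≥ 2`, all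
`D ≠ 0` in `O_K` and all injective `f` from the set of the `(d + 2) m` pairs `(i, j)` to `κ`: for all but
finitely many times `t` outside `E` the vector of the `∑_j x_(f(i, j)) ω_j`, `x = c_t`, is not exceptional:
all periodic points of the Hénon maps with these coefficients and all `δ ∈ O_K[1/D]` have degrees over `K`
that are divisible by `d`. In particular they have no periodic points over `K`.

Proof. The exceptional vectors are in pronull sets (`Pool.Agent.N681.HO`), which depend only on the
structure constants of the basis, `d`, `f` and the norm of `D`: countably many sets. By the ergodic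
theorem for random walks on finite groups (`Pool.Agent.N24.RW`), applied to the group of affine permutations
of `(ℤ/q)^κ`, the random orbits visit pronull sets only at times of density zero (`Run7.h972.AW`).
-/

set_option autoImplicit false

namespace Pool.Agent.Results.MP_0e6b5f_nt.RandomAffineOrbits

open NumberField Module MeasureTheory
open Pool.Agent.N24.RW (words crit clo)
open Pool.Agent.N676.OR (DensityZero)
open Pool.Agent.Results.MP_0e6b5f_nt.PeriodicDegrees (Exceptional)
open Pool.Agent.Results.MP_0e6b5f_nt.RandomOrbits (vector not_exceptional)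
open Run7.h972.AW

theorem result (κ : Type) [Fintype κ] [DecidableEq κ] [Nonempty κ] (W : AffineWalk κ) :
    ∀ᵐ w ∂(words W.m), ∃ E : Set ℕ, DensityZero E ∧
      ∀ (v : κ → ℤ) (K : Type) [Field K] [NumberField K] (m : ℕ)
        (ω : Module.Basis (Fin m) ℤ (𝓞 K)) (d : ℕ), 2 ≤ d →
        ∀ (D : 𝓞 K), D ≠ 0 → ∀ f : Fin (d + 2) × Fin m → κ, Function.Injective f →
          {t : ℕ | t ∉ E ∧ vector ω d (fun q => aorb W v w t (f q)) ∈
            Exceptional.{0, 0} K D d}.Finite := by
  filter_upwards [one_set W
    (κ := Σ x : (Σ m : ℕ, (Fin m × Fin m × Fin m → ℤ)) × ℕ × ℕ, (Fin (x.2.1 + 2) × Fin x.1.1 → κ))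
    (fun x => {c | (2 ≤ x.1.2.1 ∧ Function.Injective x.2) ∧
      c ∈ Pool.Agent.N681.HO.Bs x.1.1 x.1.2.1 x.1.2.2 x.2})
    (fun x => proNull_imp (fun h => Pool.Agent.N681.HO.pronull_Bs crit clo x.1.1 x.1.2.1 x.1.2.2
      h.1 x.2 h.2))] with w hw
  obtain ⟨E, hE, h1⟩ := hw
  refine ⟨E, hE, fun v K _ _ m ω d hd D hD f hf => ?_⟩
  refine (h1 v ⟨(⟨m, Pool.Agent.N681.HO.code ω⟩, d, (Algebra.norm ℤ D).natAbs), f⟩).subset ?_
  rintro t ⟨ht, hc⟩
  exact ⟨ht, ⟨hd, hf⟩, K, inferInstance, inferInstance, ω, rfl,
    fun hg => not_exceptional hd hD _ hg hc⟩

end Pool.Agent.Results.MP_0e6b5f_nt.RandomAffineOrbits
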