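import Pool.Agent.Run7.h823.WF.LG
import Pool.Agent.Run7.h823.WF.Ex
import Pool.Agent.Results.MP_0e6b5f_nt.PeriodicDegrees

/-!
# MP_0e6b5f_nt: the degrees of the periodic points of Hénon maps with coefficients in sparse families of vectors of
# residues: the first `m ^ ε` terms of linear recurrences modulo `m`

For a number field `K` with an integral basis `ω_0, …, ω_{m-1}` consider the vectors of integers of `K`

  `c_i = ∑_j v_{i j} ω_j`,  `i = 0, …, d + 1`,

where the integral vector `v = c₀ + y_i` with `(d + 2) m` coordinates runs through an arbitrary family `y_i`, `i ∈ s`, of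
vectors of residues modulo an integer `q` (represented by the least residues) whose Fourier coefficients at the nonzero
frequencies are at most `q ^ (-β)` times their number, `q` large.

For all but `ε |s|` members of the family the following holds for `φ = (c_1 + c_2 y + … + c_{d+1} y^d) / c_0` and all
`δ ∈ O_K[1/D]`, among them the area preserving maps `δ = 1` and all integral Jacobians: `φ` has degree `d`, and `d` divides
the degree over `K` of every finite extension `L` of `K` such that the Hénon map `(x, y) ↦ (y, φ(y) - δ x)` has a periodic point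
in `L × L`.

The family can be very sparse: examples (of vectors with `r` coordinates) are

* the values `(u_1(n), …, u_r(n))`, `n < N`, of `r` linear recurrences modulo a prime `m` with linearly independent vectors
  of coefficients, as soon as `N ≥ m ^ ε` and the roots and their quotients have orders `≥ m ^ ε`;
* the vectors `(x_1 b_1 ^ n, …, x_r b_r ^ n)`, `n < N`, `N ≥ m ^ ε`, for fixed different integers `b_j ≥ 2` and
  all `x_j ≠ 0`, modulo all but `C X ^ ε` of the primes `m ≤ X`.

In these examples only `m ^ ε` of the `m ^ r` vectors of the box occur.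

From Mathlib: `ZMod.stdAddChar`: the additive character `j ↦ exp (2 π i j / q)` of the integers modulo `q`; `ZMod.val`: the
least residue.

In the starting results the coefficient vectors run through a box (`PeriodicDegrees`), or through the integer parts of
generalised polynomials (`ThinSequences`).

Proof: the criterion of `PeriodicDegrees` (a prime which divides `c_0` exactly and modulo which the polynomial is
irreducible) and Turán's sieve as in `ThinSequences` (helper692); families with small Fourier coefficients are well distributed modulo all integers up to a power of `q`; the Fourier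
coefficients of short recurrences are estimated by the method of Bourgain, Glibichuk and Konyagin
(`Pool.Agent.Run7.h823.BK`).
-/

set_option autoImplicit false

namespace Pool.Agent.Results.MP_0e6b5f_nt.ResidueVectors

open NumberField Module Finset
open Pool.Agent.Results.MP_0e6b5f_nt.PeriodicDegrees (Exceptional)

/-- The Fourier coefficients of the vectors of residues `y i`, `i ∈ s`, modulo `q` at the nonzero frequencies are at most
`η` times the number of the vectors: `|∑ i ∈ s, e(h·y_i / q)| ≤ η |s|` for all vectors `h ≠ 0` modulo `q`. -/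
def Flat {τ ι : Type} [Fintype ι] (q : ℕ) [NeZero q] (η : ℝ) (s : Finset τ) (y : τ → ι → ZMod q) : Prop :=
  ∀ h : ι → ZMod q, h ≠ 0 → ‖∑ i ∈ s, (ZMod.stdAddChar (∑ j, h j * y i j) : ℂ)‖ ≤ η * s.card

/-- The integral vector `c₀ + y_i`, with the least residues `0 ≤ y_i < q`. -/
def vec {τ ι : Type} {q : ℕ} (y : τ → ι → ZMod q) (c₀ : ι → ℤ) (i : τ) (j : ι) : ℤ := c₀ j + ((y i j).val : ℕ)

/-- The vector of the integers `∑_j v_(i, j) ω_j` of `K`, `i = 0, …, d + 1`. -/
noncomputable def vector {K : Type} [Field K] {m d : ℕ} (ω : Module.Basis (Fin m) ℤ (𝓞 K))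
    (v : Fin (d + 2) × Fin m → ℤ) (i : Fin (d + 2)) : 𝓞 K :=
  ∑ j : Fin m, v (i, j) • ω j

section proof

open IsDedekindDomain Pool.Agent.TH377.Dyn Pool.Agent.TH377.Sup

/-- A nonzero element of a prime ideal divides its norm, so the factorial of the norm of the element
lies in the prime ideal. -/
theorem fac_mem {K : Type} [Field K] [NumberField K] {D : 𝓞 K} (hD : D ≠ 0)
    (v : HeightOneSpectrum (𝓞 K)) (h : D ∈ v.asIdeal) :
    ((Nat.factorial (Algebra.norm ℤ D).natAbs : ℕ) : 𝓞 K) ∈ v.asIdeal := by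
  have h1 : (Ideal.absNorm (Ideal.span {D}) : 𝓞 K) ∈ Ideal.span {D} := Ideal.absNorm_mem _
  have h2 : Ideal.span {D} ≤ v.asIdeal := (Ideal.span_singleton_le_iff_mem _).2 h
  have h3 : (((Algebra.norm ℤ D).natAbs : ℕ) : 𝓞 K) ∈ v.asIdeal := by
    have := h2 h1
    rwa [Ideal.absNorm_span_singleton] at this
  have h4 : (Algebra.norm ℤ D).natAbs ≠ 0 := by
    rw [Ne, Int.natAbs_eq_zero, Algebra.norm_eq_zero_iff]
    exact hD
  obtain ⟨k, hk⟩ := Nat.dvd_factorial (Nat.pos_of_ne_zero h4) le_rfl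
  rw [hk, Nat.cast_mul]
  exact v.asIdeal.mul_mem_right _ h3

theorem not_exceptional {K : Type} [Field K] [NumberField K] {d : ℕ} (hd : 2 ≤ d) {D : 𝓞 K}
    (hD : D ≠ 0) (c : Fin (d + 2) → 𝓞 K)
    (h : Pool.Agent.Run7.h823.WF.LG.LocGood d (Algebra.norm ℤ D).natAbs c) :
    c ∉ Exceptional.{0, 0} K D d := by
  obtain ⟨v, hMv, h1, h2, h3⟩ := h
  have hDv : D ∉ v.asIdeal := fun h => hMv (fac_mem hD v h)
  intro hc
  apply hc
  have h0 : c 0 ≠ 0 := by
    intro h0
    apply h2
    rw [h0]
    exact zero_mem _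
  refine ⟨h0, Pool.Agent.Results.MP_0e6b5f_nt.PeriodicDegrees.poly_natDegree c h0 v h3, ?_⟩
  rintro δ ⟨k, r, hδ⟩ L _ _ _ P n hn hP
  have hL : NumberField L := NumberField.of_module_finite K L
  obtain ⟨g1, g2, g3⟩ := Pool.Agent.TH377.Dyn.num_facts c v h3
  have hmap : Pool.Agent.Results.MP_0e6b5f_nt.PeriodicDegrees.henon L
      (Pool.Agent.Results.MP_0e6b5f_nt.PeriodicDegrees.poly c) δ =
      fun Q : L × L => (Q.2, (algebraMap (𝓞 K) L (c 0))⁻¹ *
        ((Pool.Agent.TH377.Dyn.num c).map (algebraMap (𝓞 K) L)).eval Q.2 -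
          algebraMap K L δ * Q.1) := by
    funext Q
    rw [← Pool.Agent.TH377.Dyn.map_eq]
    rfl
  rw [hmap] at hP
  have hDk : D ^ k ∉ v.asIdeal := fun h => hDv (v.isPrime.mem_of_pow_mem k h)
  have := Pool.Agent.TH377.Dyn.henon_dvd v (c 0) h1 h0 (Pool.Agent.TH377.Dyn.num c)
    (by rw [g1]; omega) g2 g3 δ r (D ^ k) hDk (by rw [← hδ]; push_cast; rfl) P n hn hP
  rwa [g1] at this

end proof

/-- **Theorem.** (1) For all number fields `K`, all integral bases of `K`, all degrees `d ≥ 2`, all nonzero `D ∈ O_K` and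
all `β, ε > 0`: for all large `q`, all families `y_i`, `i ∈ s`, of vectors of residues modulo `q` with `(d + 2) m`
coordinates and Fourier coefficients at most `q ^ (-β) |s|`, and all integral vectors `c₀`, for all but at most `ε |s|` of the
members the polynomial `φ` with the coefficients `vector ω (c₀ + y_i)` has degree `d`, and for all `δ ∈ O_K[1/D]` the degrees
over `K` of the periodic points of the Hénon map `(x, y) ↦ (y, φ(y) - δ x)` are divisible by `d` (the vector is not in
`Exceptional K D d`).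

(2) Examples: short linear recurrences. (3) Examples: the first powers of fixed integers, modulo all but `C X ^ ε` of the
primes `m ≤ X`. -/
theorem result :
    (∀ (K : Type) [Field K] [NumberField K] (m : ℕ) (ω : Module.Basis (Fin m) ℤ (𝓞 K)) (d : ℕ) (D : 𝓞 K), 2 ≤ d → D ≠ 0 →
      ∀ β ε : ℝ, 0 < β → 0 < ε → ∃ q₀ : ℕ, ∀ (q : ℕ) [NeZero q], q₀ ≤ q →
      ∀ (τ : Type) (s : Finset τ) (y : τ → Fin (d + 2) × Fin m → ZMod q), Flat q ((q : ℝ) ^ (-β)) s y →
      ∀ c₀ : Fin (d + 2) × Fin m → ℤ,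
      ({i : τ | i ∈ s ∧ vector ω (vec y c₀ i) ∈ Exceptional.{0, 0} K D d}.ncard : ℝ) ≤ ε * s.card) ∧
    (∀ (k : ℕ) (ε : ℝ), 0 < ε → ∃ β : ℝ, 0 < β ∧ ∃ m₀ : ℕ, ∀ (m : ℕ) [Fact m.Prime], m₀ ≤ m →
      ∀ (ι : Type) [Fintype ι] (c : ι → Fin k → ZMod m) (g : Fin k → (ZMod m)ˣ) (N : ℕ), LinearIndependent (ZMod m) c →
      (∀ i, (m : ℝ) ^ ε ≤ orderOf (g i)) → (∀ i j, i ≠ j → (m : ℝ) ^ ε ≤ orderOf (g i / g j)) → (m : ℝ) ^ ε ≤ N →
      Flat m ((m : ℝ) ^ (-β)) (range N) (fun n j => ∑ i, c j i * (g i : ZMod m) ^ n)) ∧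
    (∀ (ι : Type) [Fintype ι] (ε : ℝ), 0 < ε → ∃ β : ℝ, 0 < β ∧ ∀ b : ι → ℕ, (∀ j, 2 ≤ b j) → Function.Injective b →
      ∃ C : ℝ, ∀ X : ℕ, 1 ≤ X → ∀ Q : Finset ℕ,
      (∀ m ∈ Q, m ≤ X ∧ ∃ _ : Fact m.Prime, ¬ ∀ N : ℕ, (m : ℝ) ^ ε ≤ N → ∀ x : ι → ZMod m, (∀ j, x j ≠ 0) →
        Flat m ((m : ℝ) ^ (-β)) (range N) (fun n j => x j * (b j : ZMod m) ^ n)) →
      (Q.card : ℝ) ≤ C * (X : ℝ) ^ ε) := by
  refine ⟨?_, fun k ε hε => Pool.Agent.Run7.h823.WF.flat_rec' k hε,
    fun ι _ ε hε => Pool.Agent.Run7.h823.WF.flat_pow' ι hε⟩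
  intro K _ _ m ω d D hd hD β ε hβ hε
  obtain ⟨q₀, h⟩ := Pool.Agent.Run7.h823.WF.LG.residues ω d hd (Algebra.norm ℤ D).natAbs hβ ε hε
  refine ⟨q₀, fun q _ hq τ s y hf c₀ => le_trans ?_ (h τ q hq s y c₀ hf)⟩
  apply Pool.Agent.Run7.h823.WF.ncard_mono
  intro i _ hn hg
  exact not_exceptional hd hD _ hg hn

end Pool.Agent.Results.MP_0e6b5f_nt.ResidueVectors
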